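import Pool.Agent.MP_ea150c_mp.H16.FSpec

/-! Row ComR: the approximations commute with the total differential. -/

namespace Pool.Agent.MP_ea150c_mp.H60

open Pool.Agent.MP_ea150c_mp.H49 Pool.Agent.MP_ea150c_mp.H16

noncomputable section

section Gen
variable {O E E' I : Type} [CommRing O] [AddCommGroup E] [Module O E] [AddCommGroup E']
  [Module O E'] [LinearOrder I] [Inhabited I]

theorem sm_iff (c : O) (M : Submodule O E) (x : E) : x ∈ sm c M ↔ ∃ y ∈ M, c • y = x := by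
  simp [sm]

omit [Inhabited I] in
theorem dl_apply (x : Finset I → E) (J : Finset I) :
    dl O E x J = ∑ j ∈ J, ((-1 : O) ^ (J.filter (· < j)).card) • x (J.erase j) := rfl

theorem mn_mem {J : Finset I} (h : J.Nonempty) : mn J ∈ J := by
  rw [mn, dif_pos h]; exact J.min'_mem h

theorem mn_le {J : Finset I} {j : I} (h : j ∈ J) : mn J ≤ j := by
  rw [mn, dif_pos ⟨j, h⟩]; exact J.min'_le j h

theorem tl_empty : tl (∅ : Finset I) = ∅ := by simp [tl]

theorem mn_erase {J : Finset I} {j : I} (h : j ∈ tl J) : mn (J.erase j) = mn J := by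
  obtain ⟨h1, h2⟩ := Finset.mem_erase.1 h
  have h3 : mn J ∈ J.erase j := Finset.mem_erase.2 ⟨h1.symm, mn_mem ⟨j, h2⟩⟩
  exact le_antisymm (mn_le h3) (mn_le (Finset.mem_of_mem_erase (mn_mem ⟨_, h3⟩)))

theorem tl_erase {J : Finset I} {j : I} (h : j ∈ tl J) : tl (J.erase j) = (tl J).erase j := by
  rw [tl, mn_erase h, tl, Finset.erase_right_comm]

theorem card_tl {J : Finset I} (h : J.Nonempty) : (tl J).card + 1 = J.card :=
  Finset.card_erase_add_one (mn_mem h)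

theorem dl_split (y : Finset I → E) {J : Finset I} (h : J.Nonempty) :
    dl O E y J = y (tl J) -
      ∑ j ∈ tl J, ((-1 : O) ^ ((tl J).filter (· < j)).card) • y (J.erase j) := by
  rw [dl_apply, ← Finset.add_sum_erase _ _ (mn_mem h), sub_eq_add_neg, ← Finset.sum_neg_distrib]
  have h0 : J.filter (· < mn J) = ∅ :=
    Finset.filter_eq_empty_iff.2 fun j hj => not_lt.2 (mn_le hj)
  rw [h0, Finset.card_empty, pow_zero, one_smul]
  refine congrArg₂ (· + ·) rfl (Finset.sum_congr rfl fun j hj => ?_)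
  obtain ⟨h1, h2⟩ := Finset.mem_erase.1 hj
  have h3 : mn J ∈ J.filter (· < j) :=
    Finset.mem_filter.2 ⟨mn_mem h, lt_of_le_of_ne (mn_le h2) h1.symm⟩
  have h4 : (tl J).filter (· < j) = (J.filter (· < j)).erase (mn J) := by
    rw [tl, Finset.filter_erase]
  rw [h4, ← Finset.card_erase_add_one h3, pow_succ, mul_neg_one, neg_smul]

theorem lem1 (f : I → (E →ₗ[O] E')) (x : Finset I → E) (J : Finset I) :
    dl O E' (fun K => f (mn K) (x K)) J =
      f (mn J) (dl O E x J) - (f (mn J) (x (tl J)) - f (mn (tl J)) (x (tl J))) := by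
  rcases J.eq_empty_or_nonempty with rfl | h
  · simp [dl_apply, tl_empty]
  · rw [dl_split _ h, dl_split _ h, map_sub, map_sum]
    have e : ∑ j ∈ tl J, ((-1 : O) ^ ((tl J).filter (· < j)).card) •
        f (mn (J.erase j)) (x (J.erase j)) =
        ∑ j ∈ tl J, f (mn J) (((-1 : O) ^ ((tl J).filter (· < j)).card) • x (J.erase j)) :=
      Finset.sum_congr rfl fun j hj => by rw [mn_erase hj, map_smul]
    rw [e]; abel

theorem lem2 (g : I → I → (E →ₗ[O] E')) (x : Finset I → E) {J : Finset I} (h : J.Nonempty) :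
    dl O E' (fun K => g (mn K) (mn (tl K)) (x (tl K))) J =
      (g (mn J) (mn (tl J)) (x (tl (tl J))) + g (mn (tl J)) (mn (tl (tl J))) (x (tl (tl J))) -
        g (mn J) (mn (tl (tl J))) (x (tl (tl J)))) - g (mn J) (mn (tl J)) (dl O E x (tl J)) := by
  rw [dl_split _ h]
  have e : ∑ j ∈ tl J, ((-1 : O) ^ ((tl J).filter (· < j)).card) •
      g (mn (J.erase j)) (mn (tl (J.erase j))) (x (tl (J.erase j))) =
      dl O E' (fun K => g (mn J) (mn K) (x K)) (tl J) := by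
    rw [dl_apply]
    exact Finset.sum_congr rfl fun j hj => by rw [mn_erase hj, tl_erase hj]
  rw [e, lem1 (g (mn J)) x (tl J)]; abel

omit [Inhabited I] in
theorem dl_sg (y : Finset I → E) (J : Finset I) :
    dl O E (fun K => ((-1 : O) ^ (K.card + 1)) • y K) J =
      -(((-1 : O) ^ (J.card + 1)) • dl O E y J) := by
  rw [dl_apply, dl_apply, Finset.smul_sum, ← Finset.sum_neg_distrib]
  refine Finset.sum_congr rfl fun j hj => ?_
  rw [Finset.card_erase_add_one hj, smul_comm, pow_succ, mul_neg_one, neg_smul, neg_neg]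

omit [Inhabited I] in
theorem dl_small {N : Finset I → Submodule O E} (hN : ∀ J J', J ⊆ J' → N J ≤ N J')
    {a b : Finset I → E} (h : ∀ K, a K - b K ∈ N K) (J : Finset I) :
    dl O E a J - dl O E b J ∈ N J := by
  rw [← Pi.sub_apply, ← map_sub, dl_apply]
  exact Submodule.sum_mem _ fun j _ =>
    Submodule.smul_mem _ _ (hN _ _ (Finset.erase_subset _ _) (h _))

theorem sg_sg (n : ℕ) (y : E) : ((-1 : O) ^ n) • ((-1 : O) ^ n) • y = y := by
  rw [smul_smul, ← mul_pow, neg_mul_neg, one_mul, one_pow, one_smul]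

omit [Inhabited I] in
theorem coch_sm {M : Finset I → Submodule O E} (c : O) (x : Coch M)
    (h : ∀ J : Finset I, J.Nonempty → x.1 J ∈ sm c (M J)) :
    x ∈ sm c (⊤ : Submodule O (Coch M)) := by
  have key : ∀ J : Finset I, ∃ y ∈ M J, c • y = x.1 J ∧ (J = ∅ → y = 0) := by
    intro J
    rcases J.eq_empty_or_nonempty with rfl | hJ
    · exact ⟨0, Submodule.zero_mem _, by rw [smul_zero, x.2.1], fun _ => rfl⟩
    · obtain ⟨y, hy, e⟩ := (sm_iff _ _ _).1 (h J hJ)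
      exact ⟨y, hy, e, fun h0 => (hJ.ne_empty h0).elim⟩
  choose y h1 h2 h3 using key
  exact (sm_iff _ _ _).2 ⟨⟨y, h3 _ rfl, h1⟩, trivial, Subtype.ext (funext h2)⟩

theorem sm_anti (c : O) {a b : ℕ} (h : a ≤ b) (M : Submodule O E) :
    sm (c ^ b) M ≤ sm (c ^ a) M := by
  intro x hx
  obtain ⟨y, hy, e⟩ := (sm_iff _ _ _).1 hx
  obtain ⟨k, rfl⟩ := Nat.exists_eq_add_of_le h
  exact (sm_iff _ _ _).2 ⟨c ^ k • y, M.smul_mem _ hy, by rw [smul_smul, ← pow_add, e]⟩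

end Gen

section Frame
variable {p : ℕ} [Fact p.Prime] {A B Γ I ι : Type} {σ : I → Type}
  [CommRing A] [Algebra ℤ_[p] A] [AddCommGroup B] [Module A B] [Module ℤ_[p] B]
  [IsScalarTower ℤ_[p] A B] [AddCommGroup Γ] [LinearOrder I] [Fintype I] [Fintype ι]
  [DecidableEq ι] [∀ j, Fintype (σ j)] [∀ j, DecidableEq (σ j)]
  {F : FrameData p A B Γ I ι σ}

theorem satS (hL : F.AxL) {J : Finset I} {w : Γ} {l S S' : ℕ} (hS : S ≤ S') {b : B}
    (h1 : b ∈ F.Bl J w l) (h2 : b ∈ sm ((p : ℤ_[p]) ^ S') (F.Bh J w)) :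
    b ∈ sm ((p : ℤ_[p]) ^ S) (F.Bl J w l) := by
  obtain ⟨y, hy, e⟩ := (sm_iff _ _ _).1 (sm_anti _ hS _ h2)
  refine (sm_iff _ _ _).2 ⟨y, ?_, e⟩
  rw [← e] at h1
  clear e h2 hS
  induction S with
  | zero => simpa using h1
  | succ n ih =>
    refine ih (hL.sat J w l _ (Submodule.smul_mem _ _ hy) ?_)
    rwa [smul_smul, ← pow_succ']

theorem satL (hL : F.AxL) (f2 : F.F2) {J : Finset I} (hJ : J.Nonempty) {M S S' : ℕ}
    (hS : S + 2 * padicValNat p M.factorial ≤ S') {z : (A →ₗ[ℤ_[p]] B) × (ι → B)}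
    (h1 : z ∈ F.Lt J M) (h2 : z ∈ F.WCt J S') : z ∈ sm ((p : ℤ_[p]) ^ S) (F.Lt J M) := by
  have a1 := f2.2.2.1 J 0 M S z.1 hJ h1.1
    (fun J' h w r hr => sm_anti _ hS _ (h2.1 J' h w r hr))
  have a2 : ∀ i, z.2 i ∈ sm ((p : ℤ_[p]) ^ S) (if M = 0 then ⊥ else F.Bl J 0 (M - 1)) := by
    intro i
    have b1 : z.2 i ∈ (if M = 0 then ⊥ else F.Bl J 0 (M - 1)) := h1.2 i trivial
    by_cases hM : M = 0
    · rw [if_pos hM, Submodule.mem_bot] at b1
      rw [b1]; exact Submodule.zero_mem _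
    · rw [if_neg hM] at b1 ⊢
      exact satS hL (le_trans (Nat.le_add_right _ _) hS) b1 (h2.2 i trivial)
  obtain ⟨P, hP, e⟩ := (sm_iff _ _ _).1 a1
  choose y hy ey using fun i => (sm_iff _ _ _).1 (a2 i)
  exact (sm_iff _ _ _).2 ⟨(P, y), ⟨hP, fun i _ => hy i⟩, Prod.ext e (funext ey)⟩

theorem monoB (hL : F.AxL) (S : ℕ) (J J' : Finset I) (h : J ⊆ J') :
    sm ((p : ℤ_[p]) ^ S) (F.Bh J 0) ≤ sm ((p : ℤ_[p]) ^ S) (F.Bh J' 0) :=
  Submodule.map_mono (hL.monoH J J' 0 h)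

theorem monoW (hL : F.AxL) (S : ℕ) (J J' : Finset I) (h : J ⊆ J') : F.WCt J S ≤ F.WCt J' S :=
  fun _ hz => ⟨fun K hK w r hr => hz.1 K (h.trans hK) w r hr,
    fun i _ => monoB hL S J J' h (hz.2 i trivial)⟩

theorem dLt_small (hL : F.AxL) {S : ℕ} {J : Finset I} {z : (A →ₗ[ℤ_[p]] B) × (ι → B)}
    (hz : z ∈ F.WCt J S) : F.dLt z ∈ sm ((p : ℤ_[p]) ^ S) (F.Bh J 0) := by
  refine Submodule.add_mem _ ?_ (Submodule.sum_mem _ fun i _ => ?_)
  · have := hz.1 J subset_rfl 0 1 (hL.one J)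
    rwa [add_zero] at this
  · obtain ⟨y, hy, e⟩ := (sm_iff _ _ _).1 (hz.2 i trivial)
    refine (sm_iff _ _ _).2 ⟨F.th i y, hL.thH i J 0 y hy, ?_⟩
    rw [← e, LinearMap.map_smul_of_tower]

theorem dLt_H (F : FrameData p A B Γ I ι σ) (j k : I) (b : B) :
    F.dLt (F.Hop j k b, 0) = F.Ψ j b - F.Ψ k b := by
  simp [FrameData.dLt, FrameData.Hop, mOp]

theorem dLt_Psi (hC : F.AxC) (j : I) (z : (A →ₗ[ℤ_[p]] B) × (ι → B)) :
    F.dLt (F.ΨLt j z) = F.Ψ j (F.dLt z) := by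
  simp [FrameData.dLt, FrameData.ΨLt, FrameData.ΨL, hC.Ψth]

end Frame

/-- Row ComR. -/
theorem comR : ComR := by
  intro p _ A B Γ I ι σ _ _ _ _ _ _ _ _ _ _ _ _ _ _ F _ hL hC _ f2 _ _ M S S' C G hS R aD aH
  have hS' : S ≤ S' := le_trans (Nat.le_add_right _ _) hS
  have finB : ∀ x : F.CB M, (∀ J : Finset I, J.Nonempty →
      x.1 J ∈ sm ((p : ℤ_[p]) ^ S') (F.Bh J 0)) → x ∈ sm ((p : ℤ_[p]) ^ S) ⊤ :=
    fun x h => coch_sm _ x fun J hJ => satS hL hS' (x.2.2 J) (h J hJ)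
  have finL : ∀ x : CLt F M, (∀ J : Finset I, J.Nonempty → x.1 J ∈ F.WCt J S') →
      x ∈ sm ((p : ℤ_[p]) ^ S) ⊤ :=
    fun x h => coch_sm _ x fun J hJ => satL hL f2 hJ hS (x.2.2 J) (h J hJ)
  refine ⟨fun b => finB _ fun J _ => ?_, fun z => finB _ fun J _ => ?_,
    fun x => finL _ fun J _ => ?_, fun z => finL _ fun J hJ => ?_, fun b => finL _ fun J hJ => ?_⟩
  · have e1 := dl_small (monoB hL S') (aD.aB b) J
    have e2 := Submodule.smul_mem _ ((-1 : ℤ_[p]) ^ (J.card + 1)) (dLt_small hL (aH.aH b J))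
    have e3 := aD.aB (C.dB b) J
    have e := Submodule.sub_mem _ (Submodule.add_mem _ e1 e2) e3
    rw [lem1 F.Ψ b.1 J, map_sub, map_smul, smul_sub, sg_sg, dLt_H, R.dB b] at e
    rw [Submodule.coe_sub, Submodule.coe_add, Pi.sub_apply, Pi.add_apply, R.dB, R.sB, R.bd]
    exact (congrArg (· ∈ _) (by abel)).mp e
  · have e := Submodule.sub_mem _ (dLt_small hL (aD.aL z J)) (aD.aB (C.bd z) J)
    rw [map_sub, dLt_Psi hC, R.bd z] at e
    rw [Submodule.coe_sub, Pi.sub_apply, R.bd]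
    exact (congrArg (· ∈ _) (by abel)).mp e
  · have e := Submodule.sub_mem _ (aH.aX x J) (aD.aL (C.inc x) J)
    rw [R.inc x] at e
    rw [Submodule.coe_sub, Pi.sub_apply, R.inc]
    exact (congrArg (· ∈ _) (by abel)).mp e
  · have e1 := dl_small (monoW hL S') (aD.aL z) J
    have e2 := Submodule.smul_mem _ ((-1 : ℤ_[p]) ^ (J.card + 1)) (aH.aKL z J)
    have e3 := aD.aL (C.dL z) J
    have e4 := aH.aH (C.sB (C.bd z)) J
    have e := Submodule.sub_mem _ (Submodule.sub_mem _ (Submodule.add_mem _ e1 e2) e3) e4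
    have h5 : ((-1 : ℤ_[p]) ^ (J.card + 1)) •
        ((F.Hop (mn J) (mn (tl J)) ((C.sB (C.bd z)).1 (tl J)), 0) :
          (A →ₗ[ℤ_[p]] B) × (ι → B)) =
        -(F.Hop (mn J) (mn (tl J)) (F.dLt (z.1 (tl J))), 0) := by
      rw [R.sB, R.bd, card_tl hJ, map_smul, pow_succ, mul_neg_one, neg_smul, Prod.smul_mk,
        sg_sg, smul_zero]
    rw [lem1 F.ΨLt z.1 J, smul_sub, sg_sg, R.dL z, h5] at e
    rw [Submodule.coe_sub, Submodule.coe_sub, Submodule.coe_add, Pi.sub_apply, Pi.sub_apply,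
      Pi.add_apply, R.dL, R.sL, R.inc]
    exact (congrArg (· ∈ _) (by abel)).mp e
  · have e1 := dl_small (monoW hL S') (aH.aH b) J
    have e2 := Submodule.smul_mem _ ((-1 : ℤ_[p]) ^ (J.card + 1)) (aH.aKB b J)
    have e3 := aH.aH (C.dB b) J
    have e := Submodule.sub_mem _ (Submodule.add_mem _ e1 e2) e3
    have h5 := lem2 (fun j k => LinearMap.inl ℤ_[p] (A →ₗ[ℤ_[p]] B) (ι → B) ∘ₗ F.Hop j k) b.1 hJ
    simp only [LinearMap.comp_apply, LinearMap.inl_apply] at h5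
    have h6 : ∀ u v w : A →ₗ[ℤ_[p]] B, ((u + v - w, 0) : (A →ₗ[ℤ_[p]] B) × (ι → B)) =
        (u, 0) + (v, 0) - (w, 0) := fun u v w => by simp
    rw [dl_sg, h5, h6, R.dB b, smul_sub, smul_sub _ ((G.KB b).1 J)] at e
    rw [Submodule.coe_sub, Submodule.coe_add, Pi.sub_apply, Pi.add_apply, R.dL, R.sL, R.inc]
    exact (congrArg (· ∈ _) (by abel)).mp e

end

end Pool.Agent.MP_ea150c_mp.H60
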